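import Mathlib

open Set Topology

namespace Pool.Agent.W_MP_4cc686_gt

/-- The double arrow space. -/
def DA : Type := unitInterval ×ₗ Bool

noncomputable instance : LinearOrder DA := inferInstanceAs (LinearOrder (unitInterval ×ₗ Bool))

noncomputable instance : TopologicalSpace DA := Preorder.topology DA

instance : OrderTopology DA := ⟨rfl⟩

/-- The points. -/
def pt (x : unitInterval) (b : Bool) : DA := toLex (x, b)

/-- The projection. -/
def pr (z : DA) : unitInterval := (ofLex z).1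

@[simp] lemma pr_pt (x : unitInterval) (b : Bool) : pr (pt x b) = x := rfl

lemma pt_surj (z : DA) : ∃ x b, z = pt x b := ⟨(ofLex z).1, (ofLex z).2, rfl⟩

lemma pt_lt {x y : unitInterval} {b c : Bool} :
    pt x b < pt y c ↔ x < y ∨ (x = y ∧ b < c) := Prod.Lex.toLex_lt_toLex

lemma pt_le {x y : unitInterval} {b c : Bool} :
    pt x b ≤ pt y c ↔ x < y ∨ (x = y ∧ b ≤ c) := Prod.Lex.toLex_le_toLex

lemma pt_lt_of_lt {x y : unitInterval} (b c : Bool) (h : x < y) : pt x b < pt y c :=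
  pt_lt.mpr (Or.inl h)

lemma lo_lt_hi (x : unitInterval) : pt x false < pt x true :=
  pt_lt.mpr (Or.inr ⟨rfl, by decide⟩)

lemma pr_mono : Monotone pr := by
  intro z w hzw
  obtain ⟨x, b, rfl⟩ := pt_surj z
  obtain ⟨y, c, rfl⟩ := pt_surj w
  rw [pt_le] at hzw
  rcases hzw with h | h
  · exact h.le
  · exact h.1.le

lemma continuous_pr : Continuous pr :=
  pr_mono.continuous_of_surjective fun x => ⟨pt x false, rfl⟩

/-- Neighbourhoods on the right of an upper point. -/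
lemma nhds_hi {x : unitInterval} {s : Set DA} (hs : s ∈ 𝓝 (pt x true)) (hx : x < 1) :
    ∃ y, x < y ∧ ∀ t b, x < t → t < y → pt t b ∈ s := by
  obtain ⟨u, hu, hus⟩ := exists_Ico_subset_of_mem_nhds hs ⟨pt 1 true, pt_lt_of_lt _ _ hx⟩
  obtain ⟨y, c, rfl⟩ := pt_surj u
  refine ⟨y, ?_, fun t b ht1 ht2 => hus ⟨(pt_lt_of_lt _ _ ht1).le, pt_lt_of_lt _ _ ht2⟩⟩
  rw [pt_lt] at hu
  rcases hu with h | ⟨_, h⟩
  · exact h
  · exact absurd h (by cases c <;> decide)

/-- Neighbourhoods on the left of a lower point. -/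
lemma nhds_lo {x : unitInterval} {s : Set DA} (hs : s ∈ 𝓝 (pt x false)) (hx : 0 < x) :
    ∃ y, y < x ∧ ∀ t b, y < t → t < x → pt t b ∈ s := by
  obtain ⟨u, hu, hus⟩ := exists_Ioc_subset_of_mem_nhds hs ⟨pt 0 true, pt_lt_of_lt _ _ hx⟩
  obtain ⟨y, c, rfl⟩ := pt_surj u
  refine ⟨y, ?_, fun t b ht1 ht2 => hus ⟨pt_lt_of_lt _ _ ht1, (pt_lt_of_lt _ _ ht2).le⟩⟩
  rw [pt_lt] at hu
  rcases hu with h | ⟨_, h⟩
  · exact h
  · exact absurd h (by cases c <;> decide)

/-- The sets `[hi d, →)` are clopen. -/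
lemma isClopen_Ici (d : unitInterval) : IsClopen (Ici (pt d true)) := by
  refine ⟨isClosed_Ici, ?_⟩
  have h : Ici (pt d true) = Ioi (pt d false) := by
    ext z
    obtain ⟨x, b, rfl⟩ := pt_surj z
    simp only [mem_Ici, mem_Ioi, pt_le, pt_lt]
    cases b <;> simp
  rw [h]
  exact isOpen_Ioi

/-- The double arrow space is hereditarily separable. -/
theorem exists_countable_dense (A : Set DA) : ∃ B ⊆ A, B.Countable ∧ A ⊆ closure B := by
  classical
  -- points that are isolated from the right or from the left, in coordinates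
  let S : Bool → Set unitInterval := fun b => {x | pt x b ∈ A}
  let T : Set unitInterval := pr '' A
  let R : Set unitInterval := {x ∈ T | 𝓝[T ∩ Ioi x] x = ⊥}
  let L : Set unitInterval := {x ∈ T | 𝓝[T ∩ Iio x] x = ⊥}
  have hR : R.Countable := countable_setOfPred_isolated_right_within
  have hL : L.Countable := countable_setOfPred_isolated_left_within
  -- a countable set meeting all rational intervals that `A` meets
  obtain ⟨Q, hQc, hQd⟩ := TopologicalSpace.exists_countable_dense unitInterval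
  have hch : ∀ pq : unitInterval × unitInterval, ∃ a : DA,
      (A ∩ pr ⁻¹' Ioo pq.1 pq.2).Nonempty → a ∈ A ∩ pr ⁻¹' Ioo pq.1 pq.2 := by
    intro pq
    by_cases h : (A ∩ pr ⁻¹' Ioo pq.1 pq.2).Nonempty
    · exact ⟨h.some, fun _ => h.some_mem⟩
    · exact ⟨pt 0 false, fun h' => absurd h' h⟩
  choose a ha using hch
  let B : Set DA := (A ∩ pr ⁻¹' (R ∪ L)) ∪ (A ∩ a '' (Q ×ˢ Q))
  refine ⟨B, ?_, ?_, ?_⟩
  · rintro z (h | h)
    · exact h.1
    · exact h.1
  · refine Countable.union ?_ ?_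
    · have h1 : A ∩ pr ⁻¹' (R ∪ L) ⊆ (fun p : unitInterval × Bool => pt p.1 p.2) ''
          ((R ∪ L) ×ˢ univ) := by
        rintro z ⟨_, hz⟩
        obtain ⟨x, b, rfl⟩ := pt_surj z
        exact ⟨(x, b), ⟨hz, mem_univ _⟩, rfl⟩
      exact (((hR.union hL).prod (Set.to_countable _)).image _).mono h1
    · exact ((hQc.prod hQc).image _).mono inter_subset_right
  · intro z hz
    by_cases hzRL : pr z ∈ R ∪ L
    · exact subset_closure (Or.inl ⟨hz, hzRL⟩)
    · rw [mem_union, not_or] at hzRL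
      have hzT : pr z ∈ T := ⟨z, hz, rfl⟩
      have hnR : 𝓝[T ∩ Ioi (pr z)] (pr z) ≠ ⊥ := fun h => hzRL.1 ⟨hzT, h⟩
      have hnL : 𝓝[T ∩ Iio (pr z)] (pr z) ≠ ⊥ := fun h => hzRL.2 ⟨hzT, h⟩
      have hneR : (𝓝[T ∩ Ioi (pr z)] (pr z)).NeBot := ⟨hnR⟩
      have hneL : (𝓝[T ∩ Iio (pr z)] (pr z)).NeBot := ⟨hnL⟩
      rw [mem_closure_iff_nhds]
      intro s hs
      -- the key: between the ends there is a rational interval met by `A`
      have key : ∀ p q : unitInterval, p < q → (∃ w ∈ A, p < pr w ∧ pr w < q) →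
          ∃ w ∈ B, p < pr w ∧ pr w < q := by
        intro p q _ ⟨w, hwA, hpw, hwq⟩
        obtain ⟨p', hp'Q, hp'1, hp'2⟩ := hQd.exists_between hpw
        obtain ⟨q', hq'Q, hq'1, hq'2⟩ := hQd.exists_between hwq
        have h1 := ha (p', q') ⟨w, hwA, hp'2, hq'1⟩
        refine ⟨a (p', q'), Or.inr ⟨h1.1, ⟨(p', q'), ⟨hp'Q, hq'Q⟩, rfl⟩⟩, ?_, ?_⟩
        · exact hp'1.trans h1.2.1
        · exact h1.2.2.trans hq'2
      obtain ⟨x, b, rfl⟩ := pt_surj z
      rw [pr_pt] at *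
      cases b with
      | true =>
        have hx1 : x < 1 := by
          obtain ⟨y, hy⟩ := hneR.nonempty_of_mem self_mem_nhdsWithin
          exact lt_of_lt_of_le hy.2 unitInterval.le_one'
        obtain ⟨y, hxy, hy⟩ := nhds_hi hs hx1
        obtain ⟨t, ht, htT⟩ : ∃ t, t < y ∧ t ∈ T ∩ Ioi x := by
          have h1 : Iio y ∈ 𝓝[T ∩ Ioi x] x := mem_nhdsWithin_of_mem_nhds (Iio_mem_nhds hxy)
          obtain ⟨t, ht⟩ := hneR.nonempty_of_mem (Filter.inter_mem h1 self_mem_nhdsWithin)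
          exact ⟨t, ht.1, ht.2⟩
        obtain ⟨w, hwA, hw⟩ := htT.1
        obtain ⟨w', hw'B, hw'1, hw'2⟩ := key x y hxy ⟨w, hwA, by rw [hw]; exact htT.2, by
          rw [hw]; exact ht⟩
        obtain ⟨t', b', rfl⟩ := pt_surj w'
        exact ⟨_, hy t' b' hw'1 hw'2, hw'B⟩
      | false =>
        have hx0 : 0 < x := by
          obtain ⟨y, hy⟩ := hneL.nonempty_of_mem self_mem_nhdsWithin
          exact lt_of_le_of_lt unitInterval.nonneg' hy.2
        obtain ⟨y, hxy, hy⟩ := nhds_lo hs hx0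
        obtain ⟨t, ht, htT⟩ : ∃ t, y < t ∧ t ∈ T ∩ Iio x := by
          have h1 : Ioi y ∈ 𝓝[T ∩ Iio x] x := mem_nhdsWithin_of_mem_nhds (Ioi_mem_nhds hxy)
          obtain ⟨t, ht⟩ := hneL.nonempty_of_mem (Filter.inter_mem h1 self_mem_nhdsWithin)
          exact ⟨t, ht.1, ht.2⟩
        obtain ⟨w, hwA, hw⟩ := htT.1
        obtain ⟨w', hw'B, hw'1, hw'2⟩ := key y x hxy ⟨w, hwA, by rw [hw]; exact ht, by
          rw [hw]; exact htT.2⟩
        obtain ⟨t', b', rfl⟩ := pt_surj w'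
        exact ⟨_, hy t' b' hw'1 hw'2, hw'B⟩

end Pool.Agent.W_MP_4cc686_gt
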