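import Mathlib

namespace Pool.Agent.W_MP_4cc686_gt

/-- `C_p(X)`: the continuous real-valued functions on `X`, as a linear subspace of the product
`ℝ^X`, with the subspace topology of the product topology. -/
def Cp (X : Type*) [TopologicalSpace X] : Submodule ℝ (X → ℝ) where
  carrier := {f | Continuous f}
  add_mem' := fun hf hg => Continuous.add hf hg
  zero_mem' := continuous_zero
  smul_mem' := fun c _ hf => Continuous.const_smul hf c

/-- The density of a space: the least cardinality of a dense subset. -/
noncomputable def density (Z : Type*) [TopologicalSpace Z] : Cardinal :=
  ⨅ s : {s : Set Z // Dense s}, Cardinal.mk s.1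

/-- The hereditary density, taken to be infinite. -/
noncomputable def hd (X : Type*) [TopologicalSpace X] : Cardinal :=
  max Cardinal.aleph0 (⨆ A : Set X, density A)

end Pool.Agent.W_MP_4cc686_gt
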