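import Pool.Agent.W_MP_4cc686_gt.Defs
import Pool.Agent.W_MP_4cc686_gt.Arrow

open Set Topology Filter

namespace Pool.Agent.W_MP_4cc686_gt

/-- The jump of a function at a point of the interval. -/
def jump (f : DA → ℝ) (x : unitInterval) : ℝ := f (pt x true) - f (pt x false)

lemma near_right {f : DA → ℝ} (hf : Continuous f) {ε : ℝ} (hε : 0 < ε) (x : unitInterval) :
    ∃ V ∈ 𝓝 x, ∀ t ∈ V, x < t → |jump f t| < ε := by
  by_cases hx : x < 1
  · have hs : {z | |f z - f (pt x true)| < ε / 2} ∈ 𝓝 (pt x true) := by
      have := hf.continuousAt.preimage_mem_nhds (Metric.ball_mem_nhds (f (pt x true))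
        (by positivity : 0 < ε / 2))
      simpa [Metric.ball, Real.dist_eq, preimage] using! this
    obtain ⟨y, hxy, hy⟩ := nhds_hi hs hx
    refine ⟨Iio y, Iio_mem_nhds hxy, fun t ht hxt => ?_⟩
    have h1 : |f (pt t true) - f (pt x true)| < ε / 2 := hy t true hxt ht
    have h2 : |f (pt t false) - f (pt x true)| < ε / 2 := hy t false hxt ht
    rw [abs_lt] at *
    unfold jump
    constructor <;> linarith
  · refine ⟨univ, univ_mem, fun t _ hxt => ?_⟩
    exact absurd (lt_of_lt_of_le hxt unitInterval.le_one') hx

lemma near_left {f : DA → ℝ} (hf : Continuous f) {ε : ℝ} (hε : 0 < ε) (x : unitInterval) :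
    ∃ V ∈ 𝓝 x, ∀ t ∈ V, t < x → |jump f t| < ε := by
  by_cases hx : 0 < x
  · have hs : {z | |f z - f (pt x false)| < ε / 2} ∈ 𝓝 (pt x false) := by
      have := hf.continuousAt.preimage_mem_nhds (Metric.ball_mem_nhds (f (pt x false))
        (by positivity : 0 < ε / 2))
      simpa [Metric.ball, Real.dist_eq, preimage] using! this
    obtain ⟨y, hxy, hy⟩ := nhds_lo hs hx
    refine ⟨Ioi y, Ioi_mem_nhds hxy, fun t ht hxt => ?_⟩
    have h1 : |f (pt t true) - f (pt x false)| < ε / 2 := hy t true ht hxt
    have h2 : |f (pt t false) - f (pt x false)| < ε / 2 := hy t false ht hxt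
    rw [abs_lt] at *
    unfold jump
    constructor <;> linarith
  · refine ⟨univ, univ_mem, fun t _ hxt => ?_⟩
    exact absurd (lt_of_le_of_lt unitInterval.nonneg' hxt) hx

/-- The jumps of a continuous function vanish at infinity. -/
theorem tendsto_jump {f : DA → ℝ} (hf : Continuous f) : Tendsto (jump f) cofinite (𝓝 0) := by
  rw [Metric.tendsto_nhds]
  intro ε hε
  rw [Filter.eventually_cofinite]
  by_contra hinf
  obtain ⟨x, -, hx⟩ := Set.Infinite.exists_accPt_of_subset_isCompact hinf
    (isCompact_univ (X := unitInterval)) (subset_univ _)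
  obtain ⟨V, hV, hV'⟩ := near_right hf hε x
  obtain ⟨W, hW, hW'⟩ := near_left hf hε x
  rw [accPt_iff_frequently] at hx
  obtain ⟨t, ⟨htx, ht⟩, htV, htW⟩ := (hx.and_eventually (inter_mem hV hW)).exists
  apply ht
  rw [Real.dist_eq, sub_zero]
  rcases lt_or_gt_of_ne htx with h | h
  · exact hW' t htW h
  · exact hV' t htV h

/-- A Urysohn function. -/
lemma urysohn (F : Finset unitInterval) (d : unitInterval) (hd : d ∉ F) :
    ∃ u : unitInterval → ℝ, Continuous u ∧ u d = 0 ∧ (∀ x ∈ F, u x = 1) ∧
      ∀ x, 0 ≤ u x ∧ u x ≤ 1 := by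
  obtain ⟨u, h1, h2, h3⟩ := exists_continuous_zero_one_of_isClosed
    (isClosed_singleton (x := d)) (F.finite_toSet.isClosed) (by
      rw [Set.disjoint_singleton_left]
      exact hd)
  exact ⟨u, u.continuous, h1 rfl, fun x hx => h2 hx, fun x => h3 x⟩

/-- Interpolation. -/
lemma interpolate (F : Finset unitInterval) (φ : unitInterval → ℝ) :
    ∃ g : unitInterval → ℝ, Continuous g ∧ ∀ x ∈ F, g x = φ x := by
  classical
  induction F using Finset.induction_on with
  | empty => exact ⟨0, continuous_zero, fun x hx => absurd hx (Finset.notMem_empty x)⟩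
  | insert d F hd ih =>
    obtain ⟨g, hg, hgF⟩ := ih
    obtain ⟨u, hu, hud, huF, -⟩ := urysohn F d hd
    refine ⟨fun x => g x * u x + φ d * (1 - u x), by fun_prop, fun x hx => ?_⟩
    rw [Finset.mem_insert] at hx
    rcases hx with rfl | hx
    · simp [hud]
    · simp [huF x hx, hgF x hx]

/-- Finitely many prescribed jumps. -/
lemma exists_jump_finset (F : Finset unitInterval) (h : unitInterval → ℝ) (c : ℝ) (hc : 0 ≤ c)
    (hF : ∀ d ∈ F, |h d| ≤ c) :
    ∃ f : DA → ℝ, Continuous f ∧ (∀ z, |f z| ≤ c) ∧ ∀ x, jump f x = if x ∈ F then h x else 0 := by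
  classical
  induction F using Finset.induction_on with
  | empty => exact ⟨0, continuous_zero, fun z => by simpa using hc, by simp [jump]⟩
  | insert d F hd ih =>
    obtain ⟨f, hf, hfc, hfj⟩ := ih fun x hx => hF x (Finset.mem_insert_of_mem hx)
    obtain ⟨u, hu, hud, huF, hu01⟩ := urysohn F d hd
    have hcl : Continuous (indicator (Ici (pt d true)) (fun _ : DA => (1 : ℝ))) :=
      (isClopen_Ici d).continuous_indicator continuous_const
    have hup : Continuous fun z => u (pr z) := hu.comp continuous_pr
    refine ⟨fun z => f z * u (pr z)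
      + h d * (indicator (Ici (pt d true)) (fun _ : DA => (1 : ℝ)) z * (1 - u (pr z))),
      (hf.mul hup).add (continuous_const.mul (hcl.mul (continuous_const.sub hup))),
      fun z => ?_, fun x => ?_⟩
    · have h1 := hfc z
      have h2 := hF d (Finset.mem_insert_self _ _)
      have h3 := hu01 (pr z)
      have h4 : |indicator (Ici (pt d true)) (fun _ : DA => (1 : ℝ)) z| ≤ 1 := by
        unfold indicator
        split_ifs <;> simp
      calc |f z * u (pr z)
          + h d * (indicator (Ici (pt d true)) (fun _ : DA => (1 : ℝ)) z * (1 - u (pr z)))|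
          ≤ |f z| * u (pr z)
            + |h d| * (|indicator (Ici (pt d true)) (fun _ : DA => (1 : ℝ)) z| * (1 - u (pr z))) := by
            refine (abs_add_le _ _).trans ?_
            rw [abs_mul, abs_mul, abs_mul, abs_of_nonneg h3.1, abs_of_nonneg (by linarith [h3.2] :
              0 ≤ 1 - u (pr z))]
        _ ≤ c * u (pr z) + c * (1 * (1 - u (pr z))) := by
            have h5 : 0 ≤ 1 - u (pr z) := by linarith [h3.2]
            have h6 := h3.1
            gcongr
        _ = c := by ring
    · have hj := hfj x
      unfold jump at hj ⊢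
      simp only [pr_pt]
      have hsplit : f (pt x true) * u x - f (pt x false) * u x
          = (if x ∈ F then h x else 0) * u x := by
        rw [← sub_mul, hj]
      by_cases hxd : x = d
      · subst hxd
        have h1 : pt x true ∈ Ici (pt x true) := self_mem_Ici
        have h2 : pt x false ∉ Ici (pt x true) := by
          rw [mem_Ici, not_le]; exact lo_lt_hi x
        rw [indicator_of_mem h1, indicator_of_notMem h2, hud]
        simp
      · have h1 : indicator (Ici (pt d true)) (fun _ : DA => (1 : ℝ)) (pt x true)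
            = indicator (Ici (pt d true)) (fun _ : DA => (1 : ℝ)) (pt x false) := by
          rcases lt_or_gt_of_ne hxd with h | h
          · rw [indicator_of_notMem, indicator_of_notMem]
            · rw [mem_Ici, not_le]; exact pt_lt_of_lt _ _ h
            · rw [mem_Ici, not_le]; exact pt_lt_of_lt _ _ h
          · rw [indicator_of_mem, indicator_of_mem]
            · rw [mem_Ici]; exact (pt_lt_of_lt _ _ h).le
            · rw [mem_Ici]; exact (pt_lt_of_lt _ _ h).le
        rw [h1]
        have h2 : (f (pt x true) * u x + h d *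
            (indicator (Ici (pt d true)) (fun _ : DA => (1 : ℝ)) (pt x false) * (1 - u x)))
            - (f (pt x false) * u x + h d *
            (indicator (Ici (pt d true)) (fun _ : DA => (1 : ℝ)) (pt x false) * (1 - u x)))
            = f (pt x true) * u x - f (pt x false) * u x := by ring
        rw [h2, hsplit]
        by_cases hxF : x ∈ F
        · simp [hxF, huF x hxF]
        · simp [hxF, hxd]

/-- Every family of jumps that vanishes at infinity is realised. -/
theorem exists_jump (h : unitInterval → ℝ) (hh : Tendsto h cofinite (𝓝 0)) :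
    ∃ f : DA → ℝ, Continuous f ∧ jump f = h := by
  classical
  -- level sets
  let E : ℕ → Set unitInterval := fun n => {x | (1 / 2 : ℝ) ^ n ≤ |h x|}
  have hE : ∀ n, (E n).Finite := by
    intro n
    rw [Metric.tendsto_nhds] at hh
    have := hh ((1 / 2 : ℝ) ^ n) (by positivity)
    rw [Filter.eventually_cofinite] at this
    refine this.subset fun x hx => ?_
    have hx' : (1 / 2 : ℝ) ^ n ≤ |h x| := hx
    show ¬ dist (h x) 0 < (1 / 2 : ℝ) ^ n
    rw [Real.dist_eq, sub_zero, not_lt]
    exact hx'
  -- bounds
  obtain ⟨M, hM0, hM⟩ : ∃ M : ℝ, 0 ≤ M ∧ ∀ x ∈ E 0, |h x| ≤ M := by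
    obtain ⟨M, hM⟩ := ((hE 0).image fun x => |h x|).bddAbove
    refine ⟨max M 0, le_max_right _ _, fun x hx => le_max_of_le_left (hM ⟨x, hx, rfl⟩)⟩
  let G : ℕ → Finset unitInterval := fun n =>
    if n = 0 then (hE 0).toFinset else (hE n).toFinset \ (hE (n - 1)).toFinset
  let c : ℕ → ℝ := fun n => if n = 0 then M else (1 / 2 : ℝ) ^ (n - 1)
  have hc0 : ∀ n, 0 ≤ c n := by
    intro n
    simp only [c]
    split_ifs <;> positivity
  have hcG : ∀ n, ∀ x ∈ G n, |h x| ≤ c n := by
    intro n x hx
    simp only [c, G] at hx ⊢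
    split_ifs at hx ⊢ with hn
    · exact hM x (by simpa using hx)
    · rw [Finset.mem_sdiff, Set.Finite.mem_toFinset, Set.Finite.mem_toFinset] at hx
      have h2 : ¬ (1 / 2 : ℝ) ^ (n - 1) ≤ |h x| := hx.2
      exact (not_le.mp h2).le
  choose f hfcont hfc hfj using fun n => exists_jump_finset (G n) h (c n) (hc0 n) (hcG n)
  have hsum : Summable c := by
    rw [← summable_nat_add_iff 1]
    have : (fun n => c (n + 1)) = fun n => (1 / 2 : ℝ) ^ n := by
      funext n
      simp [c]
    rw [this]
    exact summable_geometric_two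
  have hfs : ∀ z, Summable fun n => f n z := fun z =>
    Summable.of_norm_bounded hsum fun n => hfc n z
  refine ⟨fun z => ∑' n, f n z, continuous_tsum hfcont hsum fun n z => hfc n z, ?_⟩
  funext x
  have h1 : jump (fun z => ∑' n, f n z) x = ∑' n, jump (f n) x := by
    unfold jump
    rw [← (hfs _).tsum_sub (hfs _)]
  rw [h1]
  simp only [hfj]
  by_cases hx : h x = 0
  · have : ∀ n, (if x ∈ G n then h x else 0) = 0 := by
      intro n
      split_ifs
      · exact hx
      · rfl
    rw [tsum_congr this, tsum_zero, hx]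
  · -- the least level containing `x`
    have hex : ∃ n, x ∈ E n := by
      obtain ⟨n, hn⟩ := exists_pow_lt_of_lt_one (abs_pos.mpr hx) (by norm_num : (1 / 2 : ℝ) < 1)
      exact ⟨n, hn.le⟩
    have hmono : ∀ m n, m ≤ n → E m ⊆ E n := by
      intro m n hmn y hy
      have hy' : (1 / 2 : ℝ) ^ m ≤ |h y| := hy
      show (1 / 2 : ℝ) ^ n ≤ |h y|
      exact (pow_le_pow_of_le_one (by norm_num) (by norm_num) hmn).trans hy'
    have hG : ∀ n, x ∈ G n ↔ n = Nat.find hex := by
      intro n
      simp only [G]
      split_ifs with hn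
      · subst hn
        rw [Set.Finite.mem_toFinset]
        constructor
        · intro h0
          exact (Nat.le_zero.mp (Nat.find_le h0)).symm
        · intro h0
          have := Nat.find_spec hex
          rwa [← h0] at this
      · rw [Finset.mem_sdiff, Set.Finite.mem_toFinset, Set.Finite.mem_toFinset]
        constructor
        · rintro ⟨h2, h3⟩
          apply le_antisymm
          · by_contra hlt
            push Not at hlt
            exact h3 (hmono _ _ (by omega) (Nat.find_spec hex))
          · exact Nat.find_le h2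
        · intro h2
          refine ⟨h2 ▸ Nat.find_spec hex, fun h3 => ?_⟩
          have := Nat.find_le (h := hex) h3
          omega
    simp only [hG]
    rw [tsum_eq_single (Nat.find hex)]
    · simp
    · intro n hn
      simp [hn]

end Pool.Agent.W_MP_4cc686_gt
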