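import Pool.Agent.W_MP_4cc686_gt.Jump

open Set Topology Filter Cardinal

namespace Pool.Agent.W_MP_4cc686_gt

/-- The double arrow space is compact. -/
instance : CompactSpace DA := by
  refine ⟨isCompact_iff_ultrafilter_le_nhds.mpr fun U _ => ?_⟩
  obtain ⟨x, -, hx⟩ := isCompact_iff_ultrafilter_le_nhds.mp (isCompact_univ (X := unitInterval))
    (U.map pr) (by simp)
  have hx' : Tendsto pr U (𝓝 x) := hx
  rcases U.mem_or_compl_mem (Iic (pt x false)) with h | h
  · refine ⟨pt x false, mem_univ _, fun s hs => ?_⟩
    by_cases h0 : 0 < x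
    · obtain ⟨u, hu, hus⟩ := exists_Ioc_subset_of_mem_nhds hs ⟨pt 0 true, pt_lt_of_lt _ _ h0⟩
      obtain ⟨y, c, rfl⟩ := pt_surj u
      have hyx : y < x := by
        rw [pt_lt] at hu
        rcases hu with h | ⟨_, h⟩
        · exact h
        · exact absurd h (by cases c <;> decide)
      have h1 : pr ⁻¹' Ioi y ∈ U := hx' (Ioi_mem_nhds hyx)
      refine Filter.mem_of_superset (inter_mem h h1) fun z hz => hus ⟨?_, hz.1⟩
      obtain ⟨t, b, rfl⟩ := pt_surj z
      exact pt_lt_of_lt _ _ hz.2
    · have hx0 : x = 0 := le_antisymm (not_lt.mp h0) unitInterval.nonneg'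
      subst hx0
      refine Filter.mem_of_superset h fun z hz => ?_
      obtain ⟨t, b, rfl⟩ := pt_surj z
      rw [mem_Iic, pt_le] at hz
      rcases hz with hz | ⟨rfl, hz⟩
      · exact absurd (lt_of_le_of_lt unitInterval.nonneg' hz) (lt_irrefl _)
      · have : b = false := by
          cases b with
          | false => rfl
          | true => exact absurd hz (by decide)
        subst this
        exact mem_of_mem_nhds hs
  · refine ⟨pt x true, mem_univ _, fun s hs => ?_⟩
    have hge : Ici (pt x true) ∈ U := by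
      refine Filter.mem_of_superset h fun z hz => ?_
      obtain ⟨t, b, rfl⟩ := pt_surj z
      rw [mem_compl_iff, mem_Iic, pt_le] at hz
      rw [mem_Ici, pt_le]
      push Not at hz
      rcases hz.1.lt_or_eq with h2 | h2
      · exact Or.inl h2
      · right
        refine ⟨h2, ?_⟩
        have := hz.2 h2.symm
        cases b <;> simp_all
    by_cases h0 : x < 1
    · obtain ⟨u, hu, hus⟩ := exists_Ico_subset_of_mem_nhds hs ⟨pt 1 true, pt_lt_of_lt _ _ h0⟩
      obtain ⟨y, c, rfl⟩ := pt_surj u
      have hyx : x < y := by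
        rw [pt_lt] at hu
        rcases hu with h | ⟨_, h⟩
        · exact h
        · exact absurd h (by cases c <;> decide)
      have h1 : pr ⁻¹' Iio y ∈ U := hx' (Iio_mem_nhds hyx)
      refine Filter.mem_of_superset (inter_mem hge h1) fun z hz => hus ⟨hz.1, ?_⟩
      obtain ⟨t, b, rfl⟩ := pt_surj z
      exact pt_lt_of_lt _ _ hz.2
    · have hx0 : x = 1 := le_antisymm unitInterval.le_one' (not_lt.mp h0)
      subst hx0
      refine Filter.mem_of_superset hge fun z hz => ?_
      obtain ⟨t, b, rfl⟩ := pt_surj z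
      rw [mem_Ici, pt_le] at hz
      rcases hz with hz | ⟨rfl, hz⟩
      · exact absurd (lt_of_lt_of_le hz unitInterval.le_one') (lt_irrefl _)
      · have : b = true := by
          cases b with
          | true => rfl
          | false => exact absurd hz (by decide)
        subst this
        exact mem_of_mem_nhds hs

/-- The interval with the discrete topology. -/
def Dsc : Type := unitInterval

instance : TopologicalSpace Dsc := ⊥

instance : DiscreteTopology Dsc := ⟨rfl⟩

/-- The identity, as a map to the discrete interval. -/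
def toD (x : unitInterval) : Dsc := x

/-- The identity, as a map from the discrete interval. -/
def unD (x : Dsc) : unitInterval := x

@[simp] lemma toD_unD (x : Dsc) : toD (unD x) = x := rfl

@[simp] lemma unD_toD (x : unitInterval) : unD (toD x) = x := rfl

/-- The jump operator, as a function. -/
noncomputable def Tfun (f : DA → ℝ) (y : OnePoint Dsc) : ℝ :=
  f (pt 0 false) + y.elim 0 (fun x : Dsc => jump f (unD x))

lemma Tfun_infty (f : DA → ℝ) : Tfun f OnePoint.infty = f (pt 0 false) := by
  simp [Tfun]

lemma Tfun_some (f : DA → ℝ) (x : Dsc) :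
    Tfun f (x : OnePoint Dsc) = f (pt 0 false) + jump f (unD x) := by
  simp [Tfun]

lemma continuous_Tfun {f : DA → ℝ} (hf : Continuous f) : Continuous (Tfun f) := by
  rw [OnePoint.continuous_iff_from_discrete]
  rw [Tfun_infty]
  have h := (tendsto_jump hf).const_add (f (pt 0 false))
  rw [add_zero] at h
  exact h.congr fun x => (Tfun_some f x).symm

/-- The jump operator. -/
noncomputable def T : Cp DA →L[ℝ] Cp (OnePoint Dsc) where
  toFun f := ⟨Tfun f.1, continuous_Tfun f.2⟩
  map_add' f g := by
    apply Subtype.ext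
    funext y
    show Tfun (f.1 + g.1) y = Tfun f.1 y + Tfun g.1 y
    induction y using OnePoint.rec with
    | infty => simp [Tfun_infty]
    | coe x => simp only [Tfun_some, jump, Pi.add_apply]; ring
  map_smul' c f := by
    apply Subtype.ext
    funext y
    show Tfun (c • f.1) y = c * Tfun f.1 y
    induction y using OnePoint.rec with
    | infty => simp [Tfun_infty]
    | coe x => simp only [Tfun_some, jump, Pi.smul_apply, smul_eq_mul]; ring
  cont := by
    refine Continuous.subtype_mk (continuous_pi fun y => ?_) _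
    have hev : ∀ z : DA, Continuous fun f : Cp DA => f.1 z := fun z =>
      (continuous_apply z).comp continuous_subtype_val
    induction y using OnePoint.rec with
    | infty => simpa only [Tfun_infty] using hev _
    | coe x =>
      simp only [Tfun_some, jump]
      exact (hev _).add ((hev _).sub (hev _))

lemma T_infty (f : Cp DA) : (T f).1 OnePoint.infty = f.1 (pt 0 false) := Tfun_infty f.1

lemma T_some (f : Cp DA) (x : Dsc) : (T f).1 x = f.1 (pt 0 false) + jump f.1 (unD x) :=
  Tfun_some f.1 x

theorem T_surjective : Function.Surjective T := by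
  rintro ⟨h, hh⟩
  have hh' : Continuous h := hh
  rw [OnePoint.continuous_iff_from_discrete] at hh'
  let k : unitInterval → ℝ := fun x => h (toD x : OnePoint Dsc) - h OnePoint.infty
  have hk : Tendsto k cofinite (𝓝 0) := by
    have := hh'.sub_const (h OnePoint.infty)
    rw [sub_self] at this
    exact this
  obtain ⟨f, hf, hfk⟩ := exists_jump k hk
  refine ⟨⟨fun z => f z + (h OnePoint.infty - f (pt 0 false)), hf.add continuous_const⟩, ?_⟩
  apply Subtype.ext
  funext y
  induction y using OnePoint.rec with
  | infty => rw [T_infty]; simp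
  | coe x =>
    rw [T_some]
    have h1 : jump (fun z => f z + (h OnePoint.infty - f (pt 0 false))) (unD x)
        = jump f (unD x) := by
      unfold jump; ring
    rw [h1, hfk]
    simp only [k, toD_unD]
    ring

lemma nhds_zero_Cp {X : Type*} [TopologicalSpace X] {s : Set (Cp X)} (hs : s ∈ 𝓝 (0 : Cp X)) :
    ∃ F : Finset X, ∃ ε > 0, ∀ f : Cp X, (∀ x ∈ F, |f.1 x| < ε) → f ∈ s := by
  rw [nhds_subtype, mem_comap] at hs
  obtain ⟨t, ht, hts⟩ := hs
  rw [nhds_pi, mem_pi'] at ht
  obtain ⟨F, v, hv, hvt⟩ := ht
  have h1 : ∀ x, ∃ ε > 0, Metric.ball (0 : ℝ) ε ⊆ v x := fun x => Metric.mem_nhds_iff.mp (hv x)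
  choose ε hε hεv using h1
  obtain ⟨δ, hδ, hδF⟩ : ∃ δ > 0, ∀ x ∈ F, δ ≤ ε x := by
    rcases F.eq_empty_or_nonempty with rfl | hne
    · exact ⟨1, one_pos, by simp⟩
    · obtain ⟨a, ha, hmin⟩ := F.exists_min_image ε hne
      exact ⟨ε a, hε a, hmin⟩
  refine ⟨F, δ, hδ, fun f hf => hts (hvt fun x hx => hεv x ?_)⟩
  rw [Metric.mem_ball, Real.dist_eq, sub_zero]
  exact lt_of_lt_of_le (hf x hx) (hδF x hx)

lemma mem_nhds_zero_Cp {X : Type*} [TopologicalSpace X] (F : Finset X) {ε : ℝ} (hε : 0 < ε) :
    {f : Cp X | ∀ x ∈ F, |f.1 x| < ε} ∈ 𝓝 (0 : Cp X) := by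
  have h : {f : Cp X | ∀ x ∈ F, |f.1 x| < ε} = ⋂ x ∈ F, {f : Cp X | |f.1 x| < ε} := by
    ext f; simp
  rw [h, Filter.biInter_finset_mem]
  intro x _
  have hev : Continuous fun f : Cp X => |f.1 x| :=
    continuous_abs.comp ((continuous_apply x).comp continuous_subtype_val)
  have h0 : |(0 : Cp X).1 x| < ε := by
    show |(0 : ℝ)| < ε
    simpa using hε
  exact hev.continuousAt.preimage_mem_nhds (Iio_mem_nhds h0)

theorem T_isOpenMap : IsOpenMap T := by
  rw [IsTopologicalAddGroup.isOpenMap_iff_nhds_zero]
  intro s hs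
  rw [mem_map] at hs
  obtain ⟨F, ε, hε, hF⟩ := nhds_zero_Cp hs
  classical
  refine Filter.mem_of_superset (mem_nhds_zero_Cp
    (insert OnePoint.infty ((F.image pr).image fun x : unitInterval => (toD x : OnePoint Dsc)))
    (half_pos hε)) fun h hh => ?_
  obtain ⟨f, rfl⟩ := T_surjective h
  -- correct the values of `f`
  obtain ⟨g, hg, hgF⟩ := interpolate (insert 0 (F.image pr))
    (fun x => if x = 0 then 0 else - f.1 (pt x false))
  have hg0 : g 0 = 0 := by
    rw [hgF 0 (Finset.mem_insert_self _ _), if_pos rfl]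
  let k : Cp DA := ⟨fun z => f.1 z + g (pr z), f.2.add (hg.comp continuous_pr)⟩
  have hk : T k = T f := by
    apply Subtype.ext
    funext y
    induction y using OnePoint.rec with
    | infty =>
      rw [T_infty, T_infty]
      show f.1 (pt 0 false) + g (pr (pt 0 false)) = f.1 (pt 0 false)
      rw [pr_pt, hg0, add_zero]
    | coe x =>
      rw [T_some, T_some]
      show f.1 (pt 0 false) + g (pr (pt 0 false)) +
        ((f.1 (pt (unD x) true) + g (pr (pt (unD x) true)))
          - (f.1 (pt (unD x) false) + g (pr (pt (unD x) false))))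
        = f.1 (pt 0 false) + (f.1 (pt (unD x) true) - f.1 (pt (unD x) false))
      rw [pr_pt, pr_pt, pr_pt, hg0]
      ring
  rw [← hk]
  apply hF
  intro z hz
  obtain ⟨x, b, rfl⟩ := pt_surj z
  have hinf : |(T f).1 OnePoint.infty| < ε / 2 := hh _ (Finset.mem_insert_self _ _)
  have hx : |(T f).1 (toD x : OnePoint Dsc)| < ε / 2 := by
    apply hh
    refine Finset.mem_insert_of_mem (Finset.mem_image.mpr ⟨x, Finset.mem_image.mpr ⟨_, hz, ?_⟩, rfl⟩)
    rfl
  rw [T_infty] at hinf
  rw [T_some, unD_toD] at hx
  have hxF : x ∈ insert 0 (F.image pr) :=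
    Finset.mem_insert_of_mem (Finset.mem_image.mpr ⟨_, hz, rfl⟩)
  show |f.1 (pt x b) + g (pr (pt x b))| < ε
  rw [pr_pt, hgF x hxF]
  rw [abs_lt] at hinf hx ⊢
  unfold jump at hx
  by_cases h0 : x = 0
  · subst h0
    rw [if_pos rfl]
    cases b <;> constructor <;> linarith
  · rw [if_neg h0]
    cases b <;> constructor <;> linarith

lemma density_le {Z : Type*} [TopologicalSpace Z] {s : Set Z} (hs : Dense s) :
    density Z ≤ Cardinal.mk s :=
  ciInf_le' (fun s : {s : Set Z // Dense s} => Cardinal.mk s.1) ⟨s, hs⟩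

theorem hd_DA : hd DA = Cardinal.aleph0 := by
  unfold hd
  rw [max_eq_left]
  refine ciSup_le' fun A => ?_
  obtain ⟨B, hBA, hBc, hAB⟩ := exists_countable_dense A
  have hd : Dense ((↑) ⁻¹' B : Set A) := by
    intro z
    rw [closure_subtype]
    have h1 : (Subtype.val '' (Subtype.val ⁻¹' B : Set A)) = B := by
      rw [Subtype.image_preimage_coe]
      exact inter_eq_right.mpr hBA
    rw [h1]
    exact hAB z.2
  refine (density_le hd).trans ?_
  rw [Cardinal.le_aleph0_iff_set_countable]
  exact hBc.preimage Subtype.val_injective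

theorem hd_OnePoint : hd (OnePoint Dsc) = Cardinal.continuum := by
  have hcard : Cardinal.mk Dsc = Cardinal.continuum := Cardinal.mk_Icc_real zero_lt_one
  have hcard2 : Cardinal.mk (OnePoint Dsc) = Cardinal.continuum := by
    show Cardinal.mk (Option Dsc) = _
    rw [Cardinal.mk_option, hcard]
    exact Cardinal.add_one_eq Cardinal.aleph0_le_continuum
  unfold hd
  apply le_antisymm
  · refine max_le Cardinal.aleph0_le_continuum (ciSup_le' fun A => ?_)
    refine (density_le dense_univ).trans ?_
    rw [← hcard2, Cardinal.mk_univ]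
    exact Cardinal.mk_set_le A
  · refine le_max_of_le_right ?_
    let A : Set (OnePoint Dsc) := range ((↑) : Dsc → OnePoint Dsc)
    refine le_trans ?_ (le_ciSup (f := fun A : Set (OnePoint Dsc) => density A)
      Cardinal.bddAbove_of_small A)
    have hne : Nonempty {s : Set A // Dense s} := ⟨⟨univ, dense_univ⟩⟩
    refine le_ciInf fun s => ?_
    have hdisc : DiscreteTopology A := by
      rw [discreteTopology_iff_isOpen_singleton]
      rintro ⟨_, x, rfl⟩
      have h1 : IsOpen ({(x : OnePoint Dsc)} : Set (OnePoint Dsc)) := by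
        rw [← image_singleton]
        exact OnePoint.isOpenEmbedding_coe.isOpenMap _ (isOpen_discrete {x})
      have h2 := h1.preimage (continuous_subtype_val (p := (· ∈ A)))
      convert h2
      ext z
      simp [Subtype.ext_iff]
    have h3 : s.1 = Set.univ := by
      have := s.2.closure_eq
      rwa [closure_discrete] at this
    rw [h3, Cardinal.mk_univ, ← hcard]
    exact (Cardinal.mk_range_eq _ OnePoint.coe_injective).ge

end Pool.Agent.W_MP_4cc686_gt
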